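import Pool.Agent.Helper23_LAP.Stmts
import Pool.Agent.Helper23_LAP.Basic

set_option autoImplicit false

namespace Pool.Agent.LAP.H20

open scoped Classical

theorem mat (hHal : HALStmt) (hMdt : MDTStmt) : MATStmt := by
  intro α β _ _ E R L q D X Y X' Y' F smp hRE hL c
  have hsub : smp c ⊆ E := fun a ha => hRE (hL.sub c a ha).1
  obtain ⟨M₁, h1, h2, h3, h4⟩ := hHal α β E (F c) (smp c) (X c) (X' c) (Y c) hsub (hL.m4 c).1
  obtain ⟨M₂, g1, g2, g3, g4⟩ := hHal β α (tr E) (tr (F c)) (tr (smp c)) (Y c) (Y' c) (X c)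
    (tr_sub hsub) (hL.m4 c).2
  have k1 : M₁ ⊆ smp c \ F c := by
    intro a ha
    rw [Finset.mem_sdiff]
    exact ⟨h1 ha, fun hf => (Finset.disjoint_left.1 h3 ha) hf⟩
  have k2 : tr M₂ ⊆ smp c \ F c := by
    intro a ha
    rw [Finset.mem_sdiff]
    rw [mem_tr] at ha
    have e1 := g1 ha
    rw [mem_tr, Prod.swap_swap] at e1
    refine ⟨e1, fun hf => ?_⟩
    refine (Finset.disjoint_left.1 g3 ha) ?_
    rw [mem_tr, Prod.swap_swap]
    exact hf
  obtain ⟨M, m1, m2, m3, m4⟩ := hMdt α β (smp c \ F c) M₁ (tr M₂) k1 k2 h2 g2.tr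
  refine ⟨M, fun a ha => (Finset.mem_sdiff.1 (m1 ha)).1, m2, ?_, h4.trans m3, ?_⟩
  · rw [Finset.disjoint_left]
    intro a ha
    exact (Finset.mem_sdiff.1 (m1 ha)).2
  · refine g4.trans ?_
    rw [ran_tr] at m4
    exact m4

end Pool.Agent.LAP.H20
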