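import Pool.Agent.Helper23_LAP.Stmts
import Pool.Agent.Helper23_LAP.Basic

set_option autoImplicit false

namespace Pool.Agent.LAP.H20

open scoped Classical

theorem prn : PRNStmt := by
  intro k L q i hL hk hq hi hD
  have hl : (10 : ℝ) ^ 4 ≤ (L : ℝ) := by exact_mod_cast hL
  have hl0 : (0 : ℝ) < L := by nlinarith
  have hi' : (i : ℝ) ≤ L := by exact_mod_cast hi
  have hi0 : (0 : ℝ) ≤ i := Nat.cast_nonneg i
  have hpow : (1 : ℝ) ≤ (1 + 1 / (L : ℝ)) ^ (i + 1) := by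
    apply one_le_pow₀
    have : (0 : ℝ) ≤ 1 / (L : ℝ) := by positivity
    linarith
  have hl3 : (0 : ℝ) ≤ (L : ℝ) ^ 3 := by positivity
  -- x = 1 / L
  obtain ⟨x, hx⟩ : ∃ x : ℝ, x = 1 / (L : ℝ) := ⟨_, rfl⟩
  have hx0 : 0 < x := by rw [hx]; positivity
  have hxL : x * L = 1 := by rw [hx]; field_simp
  have hx1 : x * 10 ^ 4 ≤ 1 := by
    calc x * 10 ^ 4 ≤ x * L := mul_le_mul_of_nonneg_left hl hx0.le
      _ = 1 := hxL
  have h4 : ∀ c : ℝ, c / (L : ℝ) ^ 4 = c * x ^ 4 := by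
    intro c; rw [hx]; field_simp
  have h2 : ∀ c : ℝ, c / (L : ℝ) ^ 2 = c * x ^ 2 := by
    intro c; rw [hx]; field_simp
  have hix : (i : ℝ) * x ≤ 1 := by
    calc (i : ℝ) * x ≤ L * x := mul_le_mul_of_nonneg_right hi' hx0.le
      _ = 1 := by rw [mul_comm]; exact hxL
  have hix0 : 0 ≤ (i : ℝ) * x := by positivity
  have hx2 : x ≤ 1 / 10000 := by linarith
  refine ⟨?_, ?_, ?_, ?_, ?_⟩
  · unfold pd
    push_cast
    apply le_of_eq
    ring
  · unfold pe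
    rw [h4, h4, h4, h4]
    push_cast
    have e1 : (30 * (i : ℝ) * x ^ 4 + 13 * x ^ 4) * (1 + 14 * x ^ 4) =
        30 * (i : ℝ) * x ^ 4 + x ^ 4 * (13 + 14 * (30 * (i * x) * x ^ 3 + 13 * x ^ 4)) := by ring
    rw [e1]
    have e2 : 30 * ((i : ℝ) + 1) * x ^ 4 = 30 * (i : ℝ) * x ^ 4 + x ^ 4 * 30 := by ring
    rw [e2]
    have e3 : x ^ 3 ≤ 1 / 1000 := by
      calc x ^ 3 ≤ (1 / 10000) ^ 3 := pow_le_pow_left₀ hx0.le hx2 3
        _ ≤ 1 / 1000 := by norm_num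
    have e4 : x ^ 4 ≤ 1 / 1000 := by
      calc x ^ 4 ≤ (1 / 10000) ^ 4 := pow_le_pow_left₀ hx0.le hx2 4
        _ ≤ 1 / 1000 := by norm_num
    have e5 : (i : ℝ) * x * x ^ 3 ≤ 1 / 1000 := by
      calc (i : ℝ) * x * x ^ 3 ≤ 1 * x ^ 3 := mul_le_mul_of_nonneg_right hix (by positivity)
        _ ≤ 1 / 1000 := by linarith
    have e6 : 13 + 14 * (30 * ((i : ℝ) * x) * x ^ 3 + 13 * x ^ 4) ≤ 30 := by
      have : 30 * ((i : ℝ) * x) * x ^ 3 = 30 * ((i : ℝ) * x * x ^ 3) := by ring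
      rw [this]
      linarith
    have := mul_le_mul_of_nonneg_left e6 (show (0 : ℝ) ≤ x ^ 4 by positivity)
    linarith
  · -- the hard one
    obtain ⟨K, hK⟩ : ∃ K : ℝ, K = 252 * (L : ℝ) ^ 13 + 5 := ⟨_, rfl⟩
    have hK0 : 0 < K := by rw [hK]; positivity
    have hR : ∀ j : ℕ, pR L j = j * K := by intro j; unfold pR; rw [hK]
    have hz : pz L i = (1 + 5 * x ^ 2) * ((i + 1) * K) := by
      unfold pz
      rw [hR, h2, hK]
      ring
    have hz0 : 0 < pz L i := by rw [hz]; positivity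
    have hKL : K ≤ 253 * (L : ℝ) ^ 13 := by
      rw [hK]
      have : (5 : ℝ) ≤ (L : ℝ) ^ 13 := by
        calc (5 : ℝ) ≤ (10 ^ 4) ^ 13 := by norm_num
          _ ≤ (L : ℝ) ^ 13 := pow_le_pow_left₀ (by norm_num) hl 13
      linarith
    have hz15 : pz L i ≤ (L : ℝ) ^ 15 := by
      rw [hz]
      have a1 : (1 + 5 * x ^ 2) ≤ 2 := by
        have : x ^ 2 ≤ (1 / 10000) ^ 2 := pow_le_pow_left₀ hx0.le hx2 2
        norm_num at this
        linarith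
      have a2 : (i : ℝ) + 1 ≤ 2 * L := by linarith
      have a3 : ((i : ℝ) + 1) * K ≤ 2 * L * (253 * (L : ℝ) ^ 13) :=
        mul_le_mul a2 hKL hK0.le (by positivity)
      calc (1 + 5 * x ^ 2) * ((i + 1) * K) ≤ 2 * (2 * L * (253 * (L : ℝ) ^ 13)) :=
            mul_le_mul a1 a3 (by positivity) (by norm_num)
        _ = 1012 * (L : ℝ) ^ 14 := by ring
        _ ≤ L * (L : ℝ) ^ 14 := mul_le_mul_of_nonneg_right (by linarith) (by positivity)
        _ = (L : ℝ) ^ 15 := by ring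
    have hDz : (L : ℝ) ^ 4 ≤ pD k i / pz L i := by
      rw [le_div_iff₀ hz0]
      calc (L : ℝ) ^ 4 * pz L i ≤ (L : ℝ) ^ 4 * (L : ℝ) ^ 15 :=
            mul_le_mul_of_nonneg_left hz15 (by positivity)
        _ = (L : ℝ) ^ 19 := by ring
        _ ≤ pD k i := hD
    obtain ⟨y, hy⟩ : ∃ y : ℝ, y = pD k i / pz L i := ⟨_, rfl⟩
    have hDy : pD k i = y * pz L i := by rw [hy]; field_simp
    rw [← hy] at hDz
    have hP : y - 1 < (pS k L i : ℝ) := by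
      unfold pS
      rw [← hy]
      exact Nat.sub_one_lt_floor y
    have hL4 : (10 : ℝ) ^ 16 ≤ (L : ℝ) ^ 4 := by
      calc (10 : ℝ) ^ 16 = (10 ^ 4) ^ 4 := by norm_num
        _ ≤ (L : ℝ) ^ 4 := pow_le_pow_left₀ (by norm_num) hl 4
    have hx4 : x ^ 4 * (L : ℝ) ^ 4 = 1 := by rw [← mul_pow, hxL, one_pow]
    have hx4' : x ^ 4 ≤ 1 / 10000 * x ^ 2 := by
      calc x ^ 4 = x ^ 2 * x ^ 2 := by ring
        _ ≤ (1 / 10000) * x ^ 2 := by
          apply mul_le_mul_of_nonneg_right _ (by positivity)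
          calc x ^ 2 ≤ (1 / 10000) ^ 2 := pow_le_pow_left₀ hx0.le hx2 2
            _ ≤ 1 / 10000 := by norm_num
    have hxy : 1 ≤ x ^ 4 * y := by
      calc (1 : ℝ) = x ^ 4 * (L : ℝ) ^ 4 := hx4.symm
        _ ≤ x ^ 4 * y := mul_le_mul_of_nonneg_left hDz (by positivity)
    have hP0 : (0 : ℝ) < pS k L i := by
      have : (1 : ℝ) < y := by linarith
      linarith
    have hx4s : x ^ 4 ≤ 1 / 4 := by
      calc x ^ 4 ≤ (1 / 10000) ^ 4 := pow_le_pow_left₀ hx0.le hx2 4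
        _ ≤ 1 / 4 := by norm_num
    have hDP : pD k i / (pS k L i : ℝ) ≤ (1 + 2 * x ^ 4) * pz L i := by
      rw [div_le_iff₀ hP0, hDy]
      have b1 : y ≤ (1 + 2 * x ^ 4) * (pS k L i : ℝ) := by
        have b2 : (1 + 2 * x ^ 4) * (y - 1) ≤ (1 + 2 * x ^ 4) * (pS k L i : ℝ) :=
          mul_le_mul_of_nonneg_left hP.le (by positivity)
        have b3 : (1 + 2 * x ^ 4) * (y - 1) = y + (2 * (x ^ 4 * y) - 1 - 2 * x ^ 4) := by ring
        rw [b3] at b2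
        linarith
      calc y * pz L i ≤ (1 + 2 * x ^ 4) * (pS k L i : ℝ) * pz L i :=
            mul_le_mul_of_nonneg_right b1 hz0.le
        _ = (1 + 2 * x ^ 4) * pz L i * (pS k L i : ℝ) := by ring
    rw [hR, hR, h4, h4]
    push_cast
    have c1 : (1 + 1 * x ^ 4) * (pD k i / (pS k L i : ℝ)) ≤
        (1 + 1 * x ^ 4) * ((1 + 2 * x ^ 4) * pz L i) :=
      mul_le_mul_of_nonneg_left hDP (by positivity)
    rw [hz] at c1
    have hx22 : x ^ 2 ≤ 1 / 10000 * x := by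
      calc x ^ 2 = x * x := by ring
        _ ≤ 1 / 10000 * x := mul_le_mul_of_nonneg_right hx2 hx0.le
    have c2 : (1 + 1 * x ^ 4) * (1 + 2 * x ^ 4) * (1 + 5 * x ^ 2) ≤ 1 + x / 100 := by
      have d1 : (1 + 1 * x ^ 4) ≤ 1 + x / 1000 := by nlinarith
      have d2 : (1 + 2 * x ^ 4) ≤ 1 + x / 1000 := by nlinarith
      have d3 : (1 + 5 * x ^ 2) ≤ 1 + x / 1000 := by nlinarith
      calc (1 + 1 * x ^ 4) * (1 + 2 * x ^ 4) * (1 + 5 * x ^ 2)
          ≤ (1 + x / 1000) * (1 + x / 1000) * (1 + x / 1000) := by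
            apply mul_le_mul (mul_le_mul d1 d2 (by positivity) (by positivity)) d3
              (by positivity) (by positivity)
        _ ≤ 1 + x / 100 := by
          have : (1 + x / 1000) * (1 + x / 1000) * (1 + x / 1000) =
            1 + x * (3 / 1000 + 3 * x / 10 ^ 6 + x ^ 2 / 10 ^ 9) := by ring
          rw [this]
          have : x ^ 2 ≤ 1 := by nlinarith
          nlinarith
    have c3 : (1 + 1 * x ^ 4) * ((1 + 2 * x ^ 4) * ((1 + 5 * x ^ 2) * (((i : ℝ) + 1) * K))) ≤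
        (1 + x / 100) * (((i : ℝ) + 1) * K) := by
      calc (1 + 1 * x ^ 4) * ((1 + 2 * x ^ 4) * ((1 + 5 * x ^ 2) * (((i : ℝ) + 1) * K)))
          = ((1 + 1 * x ^ 4) * (1 + 2 * x ^ 4) * (1 + 5 * x ^ 2)) * (((i : ℝ) + 1) * K) := by ring
        _ ≤ (1 + x / 100) * (((i : ℝ) + 1) * K) :=
          mul_le_mul_of_nonneg_right c2 (by positivity)
    have c4 : 1 / 2 * (1 + 6 * x ^ 4) * ((i : ℝ) * K + (1 + 1 * x ^ 4) *
        (pD k i / (pS k L i : ℝ))) ≤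
        1 / 2 * (1 + x / 100) * ((i : ℝ) * K + (1 + x / 100) * (((i : ℝ) + 1) * K)) := by
      have d4 : (1 + 6 * x ^ 4) ≤ 1 + x / 100 := by nlinarith
      apply mul_le_mul
      · linarith
      · linarith [c1.trans c3]
      · have : 0 ≤ pD k i / (pS k L i : ℝ) := by
          rw [hDy]
          have : 0 ≤ y := by linarith
          positivity
        positivity
      · positivity
    refine c4.trans ?_
    have e : 1 / 2 * (1 + x / 100) * ((i : ℝ) * K + (1 + x / 100) * (((i : ℝ) + 1) * K)) =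
        K / 2 * ((1 + x / 100) * ((i : ℝ) + (1 + x / 100) * ((i : ℝ) + 1))) := by ring
    rw [e]
    have e' : ((i : ℝ) + 1) * K = K / 2 * (2 * ((i : ℝ) + 1)) := by ring
    rw [e']
    apply mul_le_mul_of_nonneg_left _ (by positivity)
    have e2 : (1 + x / 100) * ((i : ℝ) + (1 + x / 100) * ((i : ℝ) + 1)) =
      2 * (i : ℝ) + 1 + (3 * (i * x) / 100 + 2 * x / 100 + x / 10000 * (i * x) + x ^ 2 / 10000) := by
      ring
    rw [e2]
    nlinarith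
  · unfold pT
    have e1 : (1 + 1 / (L : ℝ)) * ((1 + 1 / (L : ℝ)) ^ i * ((q : ℝ) / 2 ^ i + 2 * (L : ℝ) ^ 3) / 2) =
        (1 + 1 / (L : ℝ)) ^ (i + 1) * ((q : ℝ) / 2 ^ (i + 1) + (L : ℝ) ^ 3) := by
      rw [pow_succ (1 + 1 / (L : ℝ)), pow_succ (2 : ℝ)]
      field_simp
    rw [e1]
    have e2 : (1 + 1 / (L : ℝ)) ^ (i + 1) * ((q : ℝ) / 2 ^ (i + 1) + 2 * (L : ℝ) ^ 3) =
        (1 + 1 / (L : ℝ)) ^ (i + 1) * ((q : ℝ) / 2 ^ (i + 1) + (L : ℝ) ^ 3) +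
        (1 + 1 / (L : ℝ)) ^ (i + 1) * (L : ℝ) ^ 3 := by ring
    rw [e2]
    have := mul_le_mul_of_nonneg_right hpow hl3
    linarith
  · unfold pQ
    have e1 : (1 + 1 / (L : ℝ)) * ((1 + 1 / (L : ℝ)) ^ i * ((q : ℝ) / 4 ^ i + 4 * (L : ℝ) ^ 3) / 4) =
        (1 + 1 / (L : ℝ)) ^ (i + 1) * ((q : ℝ) / 4 ^ (i + 1) + (L : ℝ) ^ 3) := by
      rw [pow_succ (1 + 1 / (L : ℝ)), pow_succ (4 : ℝ)]
      field_simp
    rw [e1]
    have e2 : (1 + 1 / (L : ℝ)) ^ (i + 1) * ((q : ℝ) / 4 ^ (i + 1) + 4 * (L : ℝ) ^ 3) =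
        (1 + 1 / (L : ℝ)) ^ (i + 1) * ((q : ℝ) / 4 ^ (i + 1) + (L : ℝ) ^ 3) +
        3 * ((1 + 1 / (L : ℝ)) ^ (i + 1) * (L : ℝ) ^ 3) := by ring
    rw [e2]
    have := mul_le_mul_of_nonneg_right hpow hl3
    linarith

end Pool.Agent.LAP.H20
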